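import Pool.Agent.Work.MP_7453a1_nt_h63.Rows
import Pool.Agent.Work.MP_7453a1_nt_h45.FTwo

set_option autoImplicit false

/-!
Exceptional steps at `i, i + 2, i + 4, i + 6` do not occur, for any norm on the plane.
-/

namespace Pool.Agent.Work.MP_7453a1_nt_h63

open Pool.Agent.Work.MP_7453a1_nt_h45 Pool.Agent.Work.MP_7453a1_nt_norm

variable {N : Seminorm ℝ V} {Θ : V} {z : ℕ → Pt 2}

/-- an exceptional step at `i` -/
def Exc (z : ℕ → Pt 2) (i : ℕ) : Prop := (z (i + 3)).1 < (z i).1 + (z (i + 1)).1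

lemma ev_zsmul (Θ : V) (k : ℤ) (v : Pt 2) : ev Θ (k • v) = (k : ℝ) • ev Θ v := by
  rw [map_zsmul]
  ext i
  simp

/-- The data of consecutive rows: `p j`, `p j + X` for `j = 0, 1, 2`. -/
structure Rows (N : Seminorm ℝ V) (Θ : V) (X a b c : Pt 2) : Prop where
  d0 : 0 < X.1
  qa : 0 < a.1
  qab : a.1 + X.1 < b.1
  qbc : b.1 + X.1 < c.1
  qb2 : b.1 < 2 * a.1
  qc2 : c.1 < 2 * b.1
  na : N (ev Θ a) ≤ N (ev Θ X)
  na1 : N (ev Θ a + ev Θ X) < N (ev Θ a)
  nb : N (ev Θ b) < N (ev Θ a + ev Θ X)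
  nb1 : N (ev Θ b + ev Θ X) < N (ev Θ b)
  nc : N (ev Θ c) < N (ev Θ b + ev Θ X)
  nc1 : N (ev Θ c + ev Θ X) < N (ev Θ c)
  nX : N (ev Θ X) < 2 * N (ev Θ c)
  exa : ∀ w : Pt 2, w ≠ 0 → |w.1| < a.1 + X.1 → N (ev Θ a) ≤ N (ev Θ w)
  exb : ∀ w : Pt 2, w ≠ 0 → |w.1| < b.1 + X.1 → N (ev Θ b) ≤ N (ev Θ w)

namespace Rows

variable {X a b c : Pt 2}

lemma pos (h : Rows N Θ X a b c) : 0 < N (ev Θ X) := by
  have := h.na1
  have := h.na
  have := apply_nonneg N (ev Θ a + ev Θ X)
  linarith

lemma ne (h : Rows N Θ X a b c) : ev Θ X ≠ 0 := by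
  intro h0
  have := h.pos
  rw [h0, map_zero] at this
  exact lt_irrefl _ this

lemma hab (h : Rows N Θ X a b c) : det (ev Θ X) (ev Θ a) * det (ev Θ X) (ev Θ b) < 0 ∧
    |det (ev Θ X) (ev Θ b)| < |det (ev Θ X) (ev Θ a)| := by
  refine step (N := N) h.ne h.na1 h.nb h.nb1 h.na ?_ ?_
  · have := h.nX; have := h.nc; have := h.nb1
    linarith
  · intro k hk1 hk2
    rw [← map_sub (ev Θ), ← ev_zsmul, ← map_add (ev Θ)]
    have h1 := h.d0; have h2 := h.qab; have h3 := h.qb2; have h4 := h.qa
    have e : (b - a + k • X).1 = b.1 - a.1 + k * X.1 := by simp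
    have hk : k = -1 ∨ k = 0 ∨ k = 1 := by omega
    apply h.exa
    · intro h0
      have : (b - a + k • X).1 = 0 := by rw [h0]; rfl
      rw [e] at this
      rcases hk with rfl | rfl | rfl <;> omega
    · rw [e, abs_lt]
      rcases hk with rfl | rfl | rfl <;> constructor <;> omega

lemma hbc (h : Rows N Θ X a b c) : det (ev Θ X) (ev Θ b) * det (ev Θ X) (ev Θ c) < 0 ∧
    |det (ev Θ X) (ev Θ c)| < |det (ev Θ X) (ev Θ b)| := by
  refine step (N := N) h.ne h.nb1 h.nc h.nc1 ?_ h.nX ?_
  · have := h.na; have := h.na1; have := h.nb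
    linarith
  · intro k hk1 hk2
    rw [← map_sub (ev Θ), ← ev_zsmul, ← map_add (ev Θ)]
    have h1 := h.d0; have h2 := h.qbc; have h3 := h.qc2; have h4 := h.qa; have h5 := h.qab
    have e : (c - b + k • X).1 = c.1 - b.1 + k * X.1 := by simp
    have hk : k = -1 ∨ k = 0 ∨ k = 1 := by omega
    apply h.exb
    · intro h0
      have : (c - b + k • X).1 = 0 := by rw [h0]; rfl
      rw [e] at this
      rcases hk with rfl | rfl | rfl <;> omega
    · rw [e, abs_lt]
      rcases hk with rfl | rfl | rfl <;> constructor <;> omega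

/-- The recursion of the rows. -/
theorem recur (h : Rows N Θ X a b c) : c = b + a ∨ c = b + a + X := by
  obtain ⟨s1, l1⟩ := h.hab
  obtain ⟨s2, l2⟩ := h.hbc
  have hν := h.pos
  set x := ev Θ X with hx
  have ha : det x (ev Θ a) ≠ 0 := by
    intro h0; rw [h0, zero_mul] at s1; exact lt_irrefl _ s1
  have hw : |det x (ev Θ (c - b - a))| ≤ |det x (ev Θ a)| := by
    rw [map_sub (ev Θ), map_sub (ev Θ), det_sub, det_sub]
    rcases lt_or_gt_of_ne ha with h7 | h7
    · have h8 : 0 < det x (ev Θ b) := by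
        by_contra h9; push Not at h9
        have := mul_nonneg_of_nonpos_of_nonpos h7.le h9
        linarith
      have h9 : det x (ev Θ c) < 0 := by
        by_contra h10; push Not at h10
        have := mul_nonneg h8.le h10
        linarith
      rw [abs_of_neg h7] at l1 ⊢
      rw [abs_of_pos h8] at l1 l2
      rw [abs_of_neg h9] at l2
      rw [abs_le]; constructor <;> linarith
    · have h8 : det x (ev Θ b) < 0 := by
        by_contra h9; push Not at h9
        have := mul_nonneg h7.le h9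
        linarith
      have h9 : 0 < det x (ev Θ c) := by
        by_contra h10; push Not at h10
        have := mul_nonneg_of_nonpos_of_nonpos h8.le h10
        linarith
      rw [abs_of_pos h7] at l1 ⊢
      rw [abs_of_neg h8] at l1 l2
      rw [abs_of_pos h9] at l2
      rw [abs_le]; constructor <;> linarith
  obtain ⟨k, hk⟩ := row (N := N) ha hw h.na1
  have n1 := h.na; have n2 := h.na1; have n3 := h.nb; have n4 := h.nb1; have n5 := h.nc
  have n6 := h.nc1
  rw [← hx] at n1 n2 n3 n4 n5 n6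
  have b1 : |k + 2| < 4 := by
    have e : ((k + 2 : ℤ) : ℝ) • x = (ev Θ (c - b - a) + (k : ℝ) • x) + -(ev Θ c) + (ev Θ b + x)
        + (ev Θ a + x) := by
      rw [map_sub (ev Θ), map_sub (ev Θ)]; push_cast; module
    have n := N_add4 (N := N) (ev Θ (c - b - a) + (k : ℝ) • x) (-(ev Θ c)) (ev Θ b + x) (ev Θ a + x)
    rw [← e, N_smul, N_neg] at n
    exact lt_of_abs_mul hν n (by push_cast; linarith)
  have b2 : |k - 1| < 4 := by
    have e : ((k - 1 : ℤ) : ℝ) • x = (ev Θ (c - b - a) + (k : ℝ) • x) + -(ev Θ c + x) + ev Θ b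
        + ev Θ a := by
      rw [map_sub (ev Θ), map_sub (ev Θ)]; push_cast; module
    have n := N_add4 (N := N) (ev Θ (c - b - a) + (k : ℝ) • x) (-(ev Θ c + x)) (ev Θ b) (ev Θ a)
    rw [← e, N_smul, N_neg] at n
    exact lt_of_abs_mul hν n (by push_cast; linarith)
  rw [abs_lt] at b1 b2
  have hk' : k = -2 ∨ k = -1 ∨ k = 0 ∨ k = 1 := by omega
  have hv : c - b - a + k • X = 0 := by
    by_contra hcon
    have q1 := h.d0; have q2 := h.qab; have q3 := h.qbc; have q4 := h.qb2; have q5 := h.qc2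
    have q6 := h.qa
    have e : (c - b - a + k • X).1 = c.1 - b.1 - a.1 + k * X.1 := by simp
    have := h.exa _ hcon (by
      rw [e, abs_lt]
      rcases hk' with rfl | rfl | rfl | rfl <;> constructor <;> omega)
    rw [map_add (ev Θ), ev_zsmul] at this
    linarith
  have hc : c = b + a - k • X := by
    have : c - b - a = -(k • X) := eq_neg_of_add_eq_zero_left hv
    have h2 : c = b + a + (c - b - a) := by abel
    rw [h2, this]; abel
  have hec : ev Θ c = ev Θ b + ev Θ a - (k : ℝ) • x := by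
    rw [hc, map_sub (ev Θ), map_add (ev Θ), ev_zsmul]
  have b3 : |1 - k| < 3 := by
    have e : ((1 - k : ℤ) : ℝ) • x = (ev Θ c + x) + -(ev Θ b) + -(ev Θ a) := by
      rw [hec]; push_cast; module
    have n := N_add3 (N := N) (ev Θ c + x) (-(ev Θ b)) (-(ev Θ a))
    rw [← e, N_smul, N_neg, N_neg] at n
    exact lt_of_abs_mul hν n (by push_cast; linarith)
  have b4 : |-k - 2| < 3 := by
    have e : ((-k - 2 : ℤ) : ℝ) • x = ev Θ c + -(ev Θ b + x) + -(ev Θ a + x) := by
      rw [hec]; push_cast; module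
    have n := N_add3 (N := N) (ev Θ c) (-(ev Θ b + x)) (-(ev Θ a + x))
    rw [← e, N_smul, N_neg, N_neg] at n
    exact lt_of_abs_mul hν n (by push_cast; linarith)
  rw [abs_lt] at b3 b4
  have : k = 0 ∨ k = -1 := by omega
  rcases this with rfl | rfl
  · left; rw [hc]; simp
  · right; rw [hc]; simp

end Rows

/-- The vector `X` of an exceptional step and the two rows. -/
lemma exc_eq {h : IsFrame N Θ z} {i : ℕ} (hE : Exc z i) :
    z (i + 3) = z (i + 2) + (z (i + 1) - z i) ∧ (z (i + 2)).1 < 2 * (z i).1 := by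
  have e := h.exceptional (i := i) (j := i + 1) (l := i + 2) (m := i + 3) (by omega) (by omega)
    (by omega) hE
  have e1 : z (i + 3) = z (i + 2) + (z (i + 1) - z i) := by
    rw [← add_right_inj (z i), e]; abel
  refine ⟨e1, ?_⟩
  have := congrArg Prod.fst e1
  simp only [Prod.fst_add, Prod.fst_sub] at this
  unfold Exc at hE
  omega

/-- No exceptional steps at `i, i + 2, i + 4, i + 6`. -/
theorem no_four (h : IsFrame N Θ z) (i : ℕ) (h0 : Exc z i) (h2 : Exc z (i + 2))
    (h4 : Exc z (i + 4)) (h6 : Exc z (i + 6)) : False := by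
  obtain ⟨e0, m0⟩ := exc_eq (h := h) h0
  obtain ⟨e2, m2⟩ := exc_eq (h := h) h2
  obtain ⟨e4, m4⟩ := exc_eq (h := h) h4
  obtain ⟨e6, m6⟩ := exc_eq (h := h) h6
  set X : Pt 2 := z (i + 1) - z i with hX
  rw [show i + 2 + 3 = i + 5 by omega, show i + 2 + 2 = i + 4 by omega,
    show i + 2 + 1 = i + 3 by omega] at e2
  rw [show i + 4 + 3 = i + 7 by omega, show i + 4 + 2 = i + 6 by omega,
    show i + 4 + 1 = i + 5 by omega] at e4
  rw [show i + 6 + 3 = i + 9 by omega, show i + 6 + 2 = i + 8 by omega,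
    show i + 6 + 1 = i + 7 by omega] at e6
  rw [show i + 2 + 2 = i + 4 by omega] at m2
  rw [show i + 4 + 2 = i + 6 by omega] at m4
  rw [show i + 6 + 2 = i + 8 by omega] at m6
  have f1 : z (i + 1) = z i + X := by rw [hX]; abel
  have f3 : z (i + 3) = z (i + 2) + X := e0
  have f5 : z (i + 5) = z (i + 4) + X := by rw [e2, f3]; abel
  have f7 : z (i + 7) = z (i + 6) + X := by rw [e4, f5]; abel
  have f9 : z (i + 9) = z (i + 8) + X := by rw [e6, f7]; abel
  -- denominators
  have q01 := h.mono i (i + 1) (by omega)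
  have q12 := h.mono (i + 1) (i + 2) (by omega)
  have q34 := h.mono (i + 3) (i + 4) (by omega)
  have q56 := h.mono (i + 5) (i + 6) (by omega)
  have q78 := h.mono (i + 7) (i + 8) (by omega)
  have q0 := h.pos i
  have g1 : (z (i + 1)).1 = (z i).1 + X.1 := by rw [f1]; rfl
  have g3 : (z (i + 3)).1 = (z (i + 2)).1 + X.1 := by rw [f3]; rfl
  have g5 : (z (i + 5)).1 = (z (i + 4)).1 + X.1 := by rw [f5]; rfl
  have g7 : (z (i + 7)).1 = (z (i + 6)).1 + X.1 := by rw [f7]; rfl
  have hd : 0 < X.1 := by omega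
  -- lengths
  have n01 := h.anti i (i + 1) (by omega)
  have n12 := h.anti (i + 1) (i + 2) (by omega)
  have n23 := h.anti (i + 2) (i + 3) (by omega)
  have n34 := h.anti (i + 3) (i + 4) (by omega)
  have n45 := h.anti (i + 4) (i + 5) (by omega)
  have n56 := h.anti (i + 5) (i + 6) (by omega)
  have n67 := h.anti (i + 6) (i + 7) (by omega)
  have n78 := h.anti (i + 7) (i + 8) (by omega)
  have n89 := h.anti (i + 8) (i + 9) (by omega)
  have nX0 : er N Θ (z i) ≤ er N Θ X := by
    apply h.excl i X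
    · intro h0'; rw [h0'] at hd; exact lt_irrefl _ hd
    · rw [abs_of_pos hd]; omega
  have nX9 : er N Θ X ≤ er N Θ (z (i + 9)) + er N Θ (z (i + 8)) := by
    have e : X = z (i + 9) - z (i + 8) := by rw [f9]; abel
    rw [e]; exact er_sub_le _ _
  rw [f1] at n01 n12
  rw [f3] at n23 n34
  rw [f5] at n45 n56
  rw [f7] at n67 n78
  rw [f9] at n89 nX9
  unfold er at n01 n12 n23 n34 n45 n56 n67 n78 n89 nX0 nX9
  rw [map_add (ev Θ)] at n01 n12 n23 n34 n45 n56 n67 n78 n89 nX9
  have E0 : ∀ w : Pt 2, w ≠ 0 → |w.1| < (z i).1 + X.1 → N (ev Θ (z i)) ≤ N (ev Θ w) := by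
    intro w hw hx; exact h.excl i w hw (by omega)
  have E2 : ∀ w : Pt 2, w ≠ 0 → |w.1| < (z (i + 2)).1 + X.1 →
      N (ev Θ (z (i + 2))) ≤ N (ev Θ w) := by
    intro w hw hx; exact h.excl (i + 2) w hw (by
      rw [show i + 2 + 1 = i + 3 by omega]; omega)
  have E4 : ∀ w : Pt 2, w ≠ 0 → |w.1| < (z (i + 4)).1 + X.1 →
      N (ev Θ (z (i + 4))) ≤ N (ev Θ w) := by
    intro w hw hx; exact h.excl (i + 4) w hw (by
      rw [show i + 4 + 1 = i + 5 by omega]; omega)
  have E6 : ∀ w : Pt 2, w ≠ 0 → |w.1| < (z (i + 6)).1 + X.1 →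
      N (ev Θ (z (i + 6))) ≤ N (ev Θ w) := by
    intro w hw hx; exact h.excl (i + 6) w hw (by
      rw [show i + 6 + 1 = i + 7 by omega]; omega)
  have R0 : Rows N Θ X (z i) (z (i + 2)) (z (i + 4)) :=
    ⟨hd, q0, by omega, by omega, by omega, by omega, nX0, n01, n12, n23, n34, n45,
      by linarith, E0, E2⟩
  have R2 : Rows N Θ X (z (i + 2)) (z (i + 4)) (z (i + 6)) :=
    ⟨hd, by omega, by omega, by omega, by omega, by omega, by linarith, n23, n34, n45, n56, n67,
      by linarith, E2, E4⟩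
  have R4 : Rows N Θ X (z (i + 4)) (z (i + 6)) (z (i + 8)) :=
    ⟨hd, by omega, by omega, by omega, by omega, by omega, by linarith, n45, n56, n67, n78, n89,
      by linarith, E4, E6⟩
  obtain ⟨s01, l01⟩ := R0.hab
  obtain ⟨s12, l12⟩ := R0.hbc
  obtain ⟨s23, l23⟩ := R2.hbc
  have hν := R0.pos
  have r0 := R0.recur
  have r2 := R2.recur
  have r4 := R4.recur
  set x := ev Θ X with hx
  -- heights
  have k0 : det x (ev Θ (z (i + 4))) = det x (ev Θ (z (i + 2))) + det x (ev Θ (z i)) := by
    rcases r0 with r | r <;> rw [r]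
    · rw [map_add (ev Θ), det_add]
    · rw [map_add (ev Θ), map_add (ev Θ), det_add, det_add, ← hx, det_self, add_zero]
  have k2 : det x (ev Θ (z (i + 6))) = det x (ev Θ (z (i + 4))) + det x (ev Θ (z (i + 2))) := by
    rcases r2 with r | r <;> rw [r]
    · rw [map_add (ev Θ), det_add]
    · rw [map_add (ev Θ), map_add (ev Θ), det_add, det_add, ← hx, det_self, add_zero]
  -- a long vector
  have big : 2 * N x < 3 * N (ev Θ (z (i + 4))) := by
    rcases r4 with r | r
    · have e : (2 : ℝ) • x = (ev Θ (z (i + 6)) + x) + (ev Θ (z (i + 4)) + x)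
          + -(ev Θ (z (i + 8))) := by
        rw [r, map_add (ev Θ)]; module
      have n := N_add3 (N := N) (ev Θ (z (i + 6)) + x) (ev Θ (z (i + 4)) + x)
        (-(ev Θ (z (i + 8))))
      rw [← e, N_smul, N_neg, abs_of_pos (by norm_num)] at n
      linarith
    · have e : (2 : ℝ) • x = (ev Θ (z (i + 8)) + x) + -(ev Θ (z (i + 6)))
          + -(ev Θ (z (i + 4))) := by
        rw [r, map_add (ev Θ), map_add (ev Θ), ← hx]; module
      have n := N_add3 (N := N) (ev Θ (z (i + 8)) + x) (-(ev Θ (z (i + 6))))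
        (-(ev Θ (z (i + 4))))
      rw [← e, N_smul, N_neg, N_neg, abs_of_pos (by norm_num)] at n
      linarith
  have hu : N (ev Θ (z (i + 2)) + x) ≤ N (ev Θ (z i) - ev Θ (z (i + 4))) := by
    rcases r0 with r | r
    · have e : ev Θ (z i) - ev Θ (z (i + 4)) = -(ev Θ (z (i + 2))) := by
        rw [r, map_add (ev Θ)]; abel
      rw [e, N_neg]; linarith
    · have e : ev Θ (z i) - ev Θ (z (i + 4)) = -(ev Θ (z (i + 2)) + x) := by
        rw [r, map_add (ev Θ), map_add (ev Θ), ← hx]; abel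
      rw [e, N_neg]
  -- coordinates
  have ha : det x (ev Θ (z i)) ≠ 0 := by
    intro h0'; rw [h0', zero_mul] at s01; exact lt_irrefl _ s01
  obtain ⟨γ, hγ⟩ := exists_coord ha (ev Θ (z (i + 4)))
  set η := det x (ev Θ (z (i + 4))) / det x (ev Θ (z i)) with hη
  set A := ev Θ (z i) with hA
  have hη1 : 1 / 3 < η ∧ η < 1 / 2 := by
    rcases lt_or_gt_of_ne ha with h7 | h7
    · have h8 : 0 < det x (ev Θ (z (i + 2))) := by
        by_contra h9; push Not at h9
        have := mul_nonneg_of_nonpos_of_nonpos h7.le h9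
        linarith
      have h9 : det x (ev Θ (z (i + 4))) < 0 := by
        by_contra h10; push Not at h10
        have := mul_nonneg h8.le h10
        linarith
      have h10 : 0 < det x (ev Θ (z (i + 6))) := by
        by_contra h11; push Not at h11
        have := mul_nonneg_of_nonpos_of_nonpos h9.le h11
        linarith
      rw [abs_of_pos h10, abs_of_neg h9] at l23
      constructor
      · rw [hη, lt_div_iff_of_neg h7]; linarith
      · rw [hη, div_lt_iff_of_neg h7]; linarith
    · have h8 : det x (ev Θ (z (i + 2))) < 0 := by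
        by_contra h9; push Not at h9
        have := mul_nonneg h7.le h9
        linarith
      have h9 : 0 < det x (ev Θ (z (i + 4))) := by
        by_contra h10; push Not at h10
        have := mul_nonneg_of_nonpos_of_nonpos h8.le h10
        linarith
      have h10 : det x (ev Θ (z (i + 6))) < 0 := by
        by_contra h11; push Not at h11
        have := mul_nonneg h9.le h11
        linarith
      rw [abs_of_neg h10, abs_of_pos h9] at l23
      constructor
      · rw [hη, lt_div_iff₀ h7]; linarith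
      · rw [hη, div_lt_iff₀ h7]; linarith
  obtain ⟨hη1, hη2⟩ := hη1
  have nA : N (A + x) < N A := n01
  have comb : ∀ (s t : ℝ), N (s • A + t • x) ≤ |s - t| * N A + |t| * N (A + x) := by
    intro s t
    have e : s • A + t • x = (s - t) • A + t • (A + x) := by module
    rw [e]
    refine (map_add_le_add N _ _).trans ?_
    rw [N_smul, N_smul]
  -- bounds for γ
  have g1' : γ < η := by
    have e : (γ + 1) • x = (ev Θ (z (i + 4)) + x) + (-η) • A := by
      rw [hγ]; module
    have n := map_add_le_add N (ev Θ (z (i + 4)) + x) ((-η) • A)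
    rw [← e, N_smul, N_smul, abs_neg, abs_of_pos (by linarith : (0:ℝ) < η)] at n
    have n2 : |γ + 1| * N x < (1 + η) * N x := by nlinarith
    have n3 := lt_of_mul_lt_mul_right n2 hν.le
    have := le_abs_self (γ + 1)
    linarith
  have g2' : -1 < γ := by
    have e : (γ - η) • x = ev Θ (z (i + 4)) + (-η) • (A + x) := by
      rw [hγ]; module
    have n := map_add_le_add N (ev Θ (z (i + 4))) ((-η) • (A + x))
    rw [← e, N_smul, N_smul, abs_neg, abs_of_pos (by linarith : (0:ℝ) < η)] at n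
    have n2 : |γ - η| * N x < (1 + η) * N x := by nlinarith
    have n3 := lt_of_mul_lt_mul_right n2 hν.le
    have := neg_abs_le (γ - η)
    linarith
  have hxA : N A ≤ N x := nX0
  have pA : 0 < N A := lt_of_le_of_lt (apply_nonneg N _) nA
  have g3' : 1 / 2 < |η - γ| + |γ| := by
    have n := comb η γ
    rw [← hγ] at n
    have h8 : |γ| * N (A + x) ≤ |γ| * N A := mul_le_mul_of_nonneg_left nA.le (abs_nonneg _)
    have h9 : (1 / 2) * N A < (|η - γ| + |γ|) * N A := by
      have : N x < 2 * N (ev Θ (z (i + 4))) := by linarith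
      nlinarith
    exact lt_of_mul_lt_mul_right h9 pA.le
  have g4' : 1 / 2 < |η - (γ + 1)| + |γ + 1| := by
    have n := comb η (γ + 1)
    have e : η • A + (γ + 1) • x = ev Θ (z (i + 4)) + x := by rw [hγ]; module
    rw [e] at n
    have h8 : |γ + 1| * N (A + x) ≤ |γ + 1| * N A := mul_le_mul_of_nonneg_left nA.le (abs_nonneg _)
    have h9 : (1 / 2) * N A < (|η - (γ + 1)| + |γ + 1|) * N A := by
      have : N x < 2 * N (ev Θ (z (i + 4)) + x) := by linarith
      nlinarith
    exact lt_of_mul_lt_mul_right h9 pA.le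
  have hγ0 : γ < 0 := by
    by_contra hcon; push Not at hcon
    rw [abs_of_nonneg hcon, abs_of_pos (by linarith)] at g3'
    linarith
  have hγ1 : η - 1 < γ := by
    by_contra hcon; push Not at hcon
    rw [abs_of_nonneg (by linarith : 0 ≤ η - (γ + 1)), abs_of_pos (by linarith)] at g4'
    linarith
  have n := comb (1 - η) (-γ)
  have e : (1 - η) • A + (-γ) • x = A - ev Θ (z (i + 4)) := by rw [hγ]; module
  rw [e, abs_of_pos (by linarith : (0:ℝ) < 1 - η - -γ), abs_of_pos (by linarith : (0:ℝ) < -γ)] at n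
  have h8 : -γ * N (A + x) ≤ -γ * N A := mul_le_mul_of_nonneg_left nA.le (by linarith)
  have h9 : N (A - ev Θ (z (i + 4))) ≤ (1 - η) * N A := by nlinarith
  nlinarith

end Pool.Agent.Work.MP_7453a1_nt_h63
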