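import Pool.Agent.Work.MP_7453a1_nt_h45.Planar

set_option autoImplicit false

/-!
Rows parallel to a vector `x` in a normed plane.
-/

namespace Pool.Agent.Work.MP_7453a1_nt_h63

open Pool.Agent.Work.MP_7453a1_nt_h45

variable {N : Seminorm ℝ V}

lemma det_self (x : V) : det x x = 0 := by unfold det; ring

lemma det_add (x u v : V) : det x (u + v) = det x u + det x v := by
  unfold det; simp only [Pi.add_apply]; ring

lemma det_sub (x u v : V) : det x (u - v) = det x u - det x v := by
  unfold det; simp only [Pi.sub_apply]; ring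

lemma det_neg (x u : V) : det x (-u) = - det x u := by
  unfold det; simp only [Pi.neg_apply]; ring

lemma det_smul (x u : V) (c : ℝ) : det x (c • u) = c * det x u := by
  unfold det; simp only [Pi.smul_apply, smul_eq_mul]; ring

/-- Coordinates with respect to `a` and `x`. -/
lemma exists_coord {x a : V} (h : det x a ≠ 0) (u : V) :
    ∃ t : ℝ, u = (det x u / det x a) • a + t • x := by
  refine ⟨det u a / det x a, ?_⟩
  have h1 := det_rel x u a
  have h2 : (det x a)⁻¹ • (det x a • u) = (det x a)⁻¹ • (det u a • x + det x u • a) := by rw [h1]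
  rw [smul_smul, inv_mul_cancel₀ h, one_smul, smul_add, smul_smul, smul_smul] at h2
  refine h2.trans ?_
  rw [add_comm, div_eq_inv_mul, div_eq_inv_mul]

/-- The row lemma: a row which is not higher than the row of `a`, `a + x` contains a vector which is
shorter than `a`. -/
lemma row_aux {x a u : V} (hd : det x a ≠ 0) (h0 : 0 ≤ det x u / det x a)
    (h1 : det x u / det x a ≤ 1) (hN : N (a + x) < N a) : ∃ k : ℤ, N (u + (k : ℝ) • x) < N a := by
  obtain ⟨t, ht⟩ := exists_coord hd u
  set s := det x u / det x a with hs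
  have ha : 0 < N a := lt_of_le_of_lt (apply_nonneg N _) hN
  refine ⟨⌊(s + 1) / 2 - t⌋, ?_⟩
  have hk1 := Int.floor_le ((s + 1) / 2 - t)
  have hk2 := Int.lt_floor_add_one ((s + 1) / 2 - t)
  set k : ℤ := ⌊(s + 1) / 2 - t⌋
  set τ : ℝ := t + k with hτ
  have e : u + (k : ℝ) • x = (s - τ) • a + τ • (a + x) := by
    rw [ht]
    ext i
    simp only [Pi.add_apply, Pi.smul_apply, smul_eq_mul]
    rw [hτ]; ring
  have e1 : N (u + (k : ℝ) • x) ≤ |s - τ| * N a + |τ| * N (a + x) := by
    rw [e]
    refine (map_add_le_add N _ _).trans ?_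
    rw [map_smul_eq_mul, map_smul_eq_mul, Real.norm_eq_abs, Real.norm_eq_abs]
  have e2 : |s - τ| + |τ| ≤ 1 := by
    rcases abs_cases (s - τ) with ⟨h2, _⟩ | ⟨h2, _⟩ <;> rcases abs_cases τ with ⟨h3, _⟩ | ⟨h3, _⟩ <;>
      rw [h2, h3] <;> linarith
  by_cases h3 : τ = 0
  · have h4 : s < 1 := by linarith
    rw [h3, sub_zero, abs_zero, zero_mul, add_zero, abs_of_nonneg h0] at e1
    nlinarith
  · have h4 : 0 < |τ| := abs_pos.mpr h3
    have h5 : |τ| * N (a + x) < |τ| * N a := mul_lt_mul_of_pos_left hN h4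
    nlinarith

lemma row {x a u : V} (hd : det x a ≠ 0) (hu : |det x u| ≤ |det x a|) (hN : N (a + x) < N a) :
    ∃ k : ℤ, N (u + (k : ℝ) • x) < N a := by
  have h1 : |det x u / det x a| ≤ 1 := by
    rw [abs_div, div_le_one (abs_pos.mpr hd)]; exact hu
  rcases le_total 0 (det x u / det x a) with h0 | h0
  · exact row_aux hd h0 ((le_abs_self _).trans h1) hN
  · obtain ⟨k, hk⟩ := row_aux (N := N) (x := x) (a := a) (u := -u) hd
      (by rw [det_neg, neg_div]; linarith)
      (by rw [det_neg, neg_div]; exact (neg_le_abs _).trans h1) hN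
    refine ⟨-k, ?_⟩
    rw [show u + ((-k : ℤ) : ℝ) • x = -(-u + (k : ℝ) • x) by push_cast; module, map_neg_eq_map]
    exact hk

lemma N_smul (c : ℝ) (x : V) : N (c • x) = |c| * N x := by
  rw [map_smul_eq_mul, Real.norm_eq_abs]

lemma N_add3 (u v w : V) : N (u + v + w) ≤ N u + N v + N w := by
  have h1 := map_add_le_add N (u + v) w
  have h2 := map_add_le_add N u v
  linarith

lemma N_add4 (u v w y : V) : N (u + v + w + y) ≤ N u + N v + N w + N y := by
  have h1 := map_add_le_add N (u + v + w) y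
  have h2 := N_add3 (N := N) u v w
  linarith

lemma N_neg (u : V) : N (-u) = N u := map_neg_eq_map N u

lemma lt_of_abs_mul {k : ℤ} {m : ℤ} {ν B : ℝ} (hν : 0 < ν) (h : |(k : ℝ)| * ν ≤ B)
    (hB : B < m * ν) : |k| < m := by
  have h1 : |(k : ℝ)| * ν < m * ν := lt_of_le_of_lt h hB
  have h2 : |(k : ℝ)| < m := lt_of_mul_lt_mul_right h1 hν.le
  rw [← Int.cast_abs] at h2
  exact_mod_cast h2

/-- One step from a row to the next: the heights have opposite signs and decrease. -/
theorem step {x a b : V} (hx : x ≠ 0) (h1 : N (a + x) < N a) (h2 : N b < N (a + x))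
    (h3 : N (b + x) < N b) (h4 : N a ≤ N x) (h5 : N x < 2 * N b)
    (hex : ∀ k : ℤ, -1 ≤ k → k ≤ 1 → N a ≤ N (b - a + (k : ℝ) • x)) :
    det x a * det x b < 0 ∧ |det x b| < |det x a| := by
  have hν : 0 < N x := by
    have := apply_nonneg N (a + x)
    linarith
  have par : ∀ c : V, det x c = 0 → ∃ t : ℝ, c = t • x := by
    intro c hc
    have h6 : x 0 ≠ 0 ∨ x 1 ≠ 0 := by
      by_contra hcon
      push Not at hcon
      exact hx (by ext i; fin_cases i <;> simp [hcon.1, hcon.2])
    unfold det at hc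
    rcases h6 with h6 | h6
    · refine ⟨c 0 / x 0, ?_⟩
      ext i; fin_cases i
      · simp; field_simp
      · simp; field_simp; linarith
    · refine ⟨c 1 / x 1, ?_⟩
      ext i; fin_cases i
      · simp; field_simp; linarith
      · simp; field_simp
  -- (1)
  have c1 : ¬ (det x a = 0 ∧ det x b = 0) := by
    rintro ⟨ha, hb⟩
    obtain ⟨t, rfl⟩ := par a ha
    obtain ⟨t', rfl⟩ := par b hb
    have e1 : t • x + x = (t + 1) • x := by rw [add_smul, one_smul]
    have e2 : t' • x + x = (t' + 1) • x := by rw [add_smul, one_smul]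
    rw [e1, N_smul, N_smul] at h1
    rw [e1, N_smul, N_smul] at h2
    rw [e2, N_smul, N_smul] at h3
    rw [N_smul] at h4 h5
    have k1 : |t| ≤ 1 := by
      by_contra hcon; push Not at hcon
      have := mul_lt_mul_of_pos_right hcon hν
      linarith
    have k2 : |t + 1| < |t| := lt_of_mul_lt_mul_right h1 hν.le
    have k3 : |t'| < |t + 1| := lt_of_mul_lt_mul_right h2 hν.le
    have k4 : |t' + 1| < |t'| := lt_of_mul_lt_mul_right h3 hν.le
    have k5 : 1 < 2 * |t'| := by
      have : 1 * N x < (2 * |t'|) * N x := by linarith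
      exact lt_of_mul_lt_mul_right this hν.le
    have m : ∀ k : ℤ, -1 ≤ k → k ≤ 1 → |t| ≤ |t' - t + k| := by
      intro k hk1 hk2
      have h6 := hex k hk1 hk2
      have e3 : t' • x - t • x + (k : ℝ) • x = (t' - t + k) • x := by
        rw [add_smul, sub_smul]
      rw [e3, N_smul, N_smul] at h6
      by_contra hcon; push Not at hcon
      have := mul_lt_mul_of_pos_right hcon hν
      linarith
    have m0 := m 0 (by norm_num) (by norm_num)
    have m1 := m 1 (by norm_num) (by norm_num)
    have m2 := m (-1) (by norm_num) (by norm_num)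
    push_cast at m0 m1 m2
    rcases abs_cases t with ⟨a1, a2⟩ | ⟨a1, a2⟩ <;> rcases abs_cases (t + 1) with ⟨b1, b2⟩ | ⟨b1, b2⟩ <;>
      rcases abs_cases t' with ⟨c1, c2⟩ | ⟨c1, c2⟩ <;>
      rcases abs_cases (t' + 1) with ⟨d1, d2⟩ | ⟨d1, d2⟩ <;>
      rcases abs_cases (t' - t + 0) with ⟨f1, f2⟩ | ⟨f1, f2⟩ <;>
      rcases abs_cases (t' - t + 1) with ⟨g1, g2⟩ | ⟨g1, g2⟩ <;>
      rcases abs_cases (t' - t + -1) with ⟨i1, i2⟩ | ⟨i1, i2⟩ <;>
      linarith
  -- (2)
  have c2 : det x b ≠ 0 → |det x b| < |det x a| := by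
    intro hb
    by_contra hcon
    push Not at hcon
    obtain ⟨k, hk⟩ := row hb hcon h3
    have e1 : (k : ℝ) • x = (a + (k : ℝ) • x) + -a := by abel
    have e2 : ((k - 1 : ℤ) : ℝ) • x = (a + (k : ℝ) • x) + -(a + x) := by push_cast; module
    have n1 := map_add_le_add N (a + (k : ℝ) • x) (-a)
    have n2 := map_add_le_add N (a + (k : ℝ) • x) (-(a + x))
    rw [← e1, N_smul, N_neg] at n1
    rw [← e2, N_smul, N_neg] at n2
    have a1 : |k| < 2 := lt_of_abs_mul hν n1 (by push_cast; linarith)
    have a2 : |k - 1| < 2 := lt_of_abs_mul hν n2 (by push_cast; linarith)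
    rw [abs_lt] at a1 a2
    have a3 : k = 0 ∨ k = 1 := by omega
    rcases a3 with rfl | rfl
    · simp at hk; linarith
    · simp at hk; linarith
  have ha : det x a ≠ 0 := by
    intro h0
    by_cases hb : det x b = 0
    · exact c1 ⟨h0, hb⟩
    · have := c2 hb
      rw [h0, abs_zero] at this
      exact absurd this (not_lt.mpr (abs_nonneg _))
  have hlt : |det x b| ≤ |det x a| := by
    by_cases hb : det x b = 0
    · rw [hb, abs_zero]; exact abs_nonneg _
    · exact (c2 hb).le
  have hneg : det x a * det x b < 0 := by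
    by_contra hcon
    push Not at hcon
    have h6 : |det x (b - a)| ≤ |det x a| := by
      rw [det_sub]
      rcases lt_or_gt_of_ne ha with h7 | h7
      · have h8 : det x b ≤ 0 := by
          by_contra h9; push Not at h9
          have := mul_neg_of_neg_of_pos h7 h9
          linarith
        rw [abs_of_neg h7] at hlt ⊢
        rw [abs_of_nonpos h8] at hlt
        rw [abs_le]; constructor <;> linarith
      · have h8 : 0 ≤ det x b := by
          by_contra h9; push Not at h9
          have := mul_neg_of_pos_of_neg h7 h9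
          linarith
        rw [abs_of_pos h7] at hlt ⊢
        rw [abs_of_nonneg h8] at hlt
        rw [abs_le]; constructor <;> linarith
    obtain ⟨k, hk⟩ := row ha h6 h1
    have e1 : ((k + 1 : ℤ) : ℝ) • x = (b - a + (k : ℝ) • x) + -b + (a + x) := by push_cast; module
    have e2 : ((k - 1 : ℤ) : ℝ) • x = (b - a + (k : ℝ) • x) + -(b + x) + a := by push_cast; module
    have n1 := N_add3 (N := N) (b - a + (k : ℝ) • x) (-b) (a + x)
    have n2 := N_add3 (N := N) (b - a + (k : ℝ) • x) (-(b + x)) a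
    rw [← e1, N_smul, N_neg] at n1
    rw [← e2, N_smul, N_neg] at n2
    have a1 : |k + 1| < 3 := lt_of_abs_mul hν n1 (by push_cast; linarith)
    have a2 : |k - 1| < 3 := lt_of_abs_mul hν n2 (by push_cast; linarith)
    rw [abs_lt] at a1 a2
    have := hex k (by omega) (by omega)
    linarith
  refine ⟨hneg, c2 fun hb => ?_⟩
  rw [hb, mul_zero] at hneg
  exact lt_irrefl _ hneg

end Pool.Agent.Work.MP_7453a1_nt_h63
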